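import Mathlib
import Pool.Agent.W332.Kd.Wr

set_option autoImplicit false

/-!
# The arithmetic core, independent of the property (MP_257582_lc)

`Van n t`: for every group of permutations of an abelian group `A` of order `n` that is generated by
commuting elements `a i` of order dividing `p` and an element `c` normalising the group generated by
the `a i`, that is transitive on `A`, and for which a partition `T` of `A \ {0}` describes the
orbits of pairs, the coefficient of `x ^ t` in `∏ (1 - x ^ |T j|) / (1 - x)` is zero.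
`not_van`: this never happens for `t + 2 ≤ n`.
-/

namespace Pool.Agent.W332.Kc

open Finset Polynomial
open Pool.Agent.W332.Kd

/-- all coefficients of the generating functions of transitive groups at `t` vanish -/
def Van (n t : ℕ) : Prop :=
  ∀ (A : Type) [AddCommGroup A] [Fintype A] [DecidableEq A], Fintype.card A = n →
  ∀ (p : ℕ) [Fact p.Prime] (ι : Type) [Fintype ι] (a : ι → Equiv.Perm A) (c : Equiv.Perm A),
    (∀ i j, a i * a j = a j * a i) → (∀ i, a i ^ p = 1) →
    (∀ i, c⁻¹ * a i * c ∈ Subgroup.closure (Set.range a)) →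
    (∀ x y : A, ∃ g ∈ Subgroup.closure (insert c (Set.range a)), g x = y) →
  ∀ (κ : Type) [Fintype κ] (T : κ → Finset A), Part T →
    (∀ j i u v, v - u ∈ T j → a i v - a i u ∈ T j) →
    (∀ j u v, v - u ∈ T j → c v - c u ∈ T j) →
    (∀ j u v u' v', v - u ∈ T j → v' - u' ∈ T j →
      ∃ g ∈ Subgroup.closure (insert c (Set.range a)),
        (g u = u' ∧ g v = v') ∨ (g u = v' ∧ g v = u')) →
  ∀ G : ℤ[X], ∏ j, (1 - (X : ℤ[X]) ^ (T j).card) = (1 - X) * G → G.coeff t = 0

/-- Relation for a regular abelian group. -/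
theorem regularV {n t : ℕ} (hV : Van n t) {A : Type} [AddCommGroup A] [Fintype A]
    [DecidableEq A] (hA : Fintype.card A = n) (p : ℕ) [Fact p.Prime] {ι : Type} [Fintype ι]
    (a : ι → A) (c : A) (hpa : ∀ i, p • a i = 0)
    (hgen : ∀ x : A, trl x ∈ Subgroup.closure (insert (trl c) (Set.range fun i => trl (a i))))
    (G : ℤ[X]) (hG : ∀ k, 2 * k + inv A + 1 = n → (1 - (X : ℤ[X])) ^ inv A * (1 - X ^ 2) ^ k =
      (1 - X) * G) :
    G.coeff t = 0 := by
  obtain ⟨k, hk, hprod⟩ := prod_pr (A := A)
  refine hV A hA p ι (fun i => trl (a i)) (trl c) ?_ ?_ ?_ ?_ _ (fun j : Rp A => pr j.1) part_pr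
    ?_ ?_ ?_ G ?_
  · intro i j
    rw [← trl_add, ← trl_add, add_comm]
  · intro i
    rw [← trl_nsmul, hpa, trl_zero]
  · intro i
    have : (trl c)⁻¹ * trl (a i) * trl c = trl (a i) := by
      rw [mul_assoc, ← trl_add, add_comm, trl_add, inv_mul_cancel_left]
    rw [this]
    exact Subgroup.subset_closure ⟨i, rfl⟩
  · intro x y
    refine ⟨trl (y - x), hgen _, ?_⟩
    change x + (y - x) = y
    abel
  · intro j i u v h
    change (v + a i) - (u + a i) ∈ _
    rwa [add_sub_add_right_eq_sub]
  · intro j u v h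
    change (v + c) - (u + c) ∈ _
    rwa [add_sub_add_right_eq_sub]
  · intro j u v u' v' h h'
    rw [mem_pr] at h h'
    have hcase : v' - u' = v - u ∨ v' - u' = -(v - u) := by
      rcases h with h | h <;> rcases h' with h' | h' <;> rw [h, h']
      · exact Or.inl rfl
      · exact Or.inr rfl
      · exact Or.inr (neg_neg _).symm
      · exact Or.inl rfl
    rcases hcase with h1 | h1
    · refine ⟨trl (u' - u), hgen _, Or.inl ⟨?_, ?_⟩⟩
      · change u + (u' - u) = u'
        abel
      · change v + (u' - u) = v'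
        have : v' = (v' - u') + u' := by abel
        rw [this, h1]
        abel
    · refine ⟨trl (v' - u), hgen _, Or.inr ⟨?_, ?_⟩⟩
      · change u + (v' - u) = v'
        abel
      · change v + (v' - u) = u'
        have : v' = (v' - u') + u' := by abel
        rw [this, h1]
        abel
  · rw [hprod]
    exact hG k (by rw [hk, hA])

/-- `n` odd -/
theorem caseV_odd {n t : ℕ} (hV : Van n t) (hn : 2 ≤ n) (ho : Odd n)
    (ht : t + 2 ≤ n) : False := by
  have : NeZero n := ⟨by omega⟩
  have : Fact (Nat.Prime 2) := ⟨Nat.prime_two⟩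
  obtain ⟨k, hk⟩ : ∃ k, n = 2 * k + 3 := by
    obtain ⟨j, hj⟩ := ho
    exact ⟨j - 1, by omega⟩
  have hinv : inv (ZMod n) = 0 := by
    have := inv_add_one (ZMod n)
    rw [tor_odd ho] at this
    omega
  have key := regularV hV (A := ZMod n) (ZMod.card n) 2 (ι := Empty) (fun i => i.elim) 1
    (fun i => i.elim) (gen_cyc _)
    ((1 + X) * (1 - X ^ 2) ^ k) (by
      intro k' hk'
      rw [hinv] at hk' ⊢
      have : k' = k + 1 := by omega
      rw [this]
      ring)
  exact p_ne (by omega) key

/-- `n` even, `t` even -/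
theorem caseV_even {n t : ℕ} (hV : Van n t) (hn : 2 ≤ n) (he : Even n)
    (ht : t + 2 ≤ n) (hte : Even t) : False := by
  have : NeZero n := ⟨by omega⟩
  have : Fact (Nat.Prime 2) := ⟨Nat.prime_two⟩
  obtain ⟨k, hk⟩ : ∃ k, n = 2 * k + 2 := by
    obtain ⟨j, hj⟩ := he
    exact ⟨j - 1, by omega⟩
  have hinv : inv (ZMod n) = 1 := by
    have := inv_add_one (ZMod n)
    rw [tor_even he] at this
    omega
  have key := regularV hV (A := ZMod n) (ZMod.card n) 2 (ι := Empty) (fun i => i.elim) 1
    (fun i => i.elim) (gen_cyc _)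
    ((1 - X ^ 2) ^ k) (by
      intro k' hk'
      rw [hinv] at hk' ⊢
      have : k' = k := by omega
      rw [this, pow_one])
  obtain ⟨i, hi⟩ := hte
  rw [show t = 2 * i by omega, e2_even] at key
  exact cf_ne (by omega) key

/-- `4 ∣ n`, `t` odd -/
theorem caseV_four {n t : ℕ} (hV : Van n t) (hn : 2 ≤ n) (h4 : 4 ∣ n)
    (ht : t + 2 ≤ n) (hto : Odd t) : False := by
  obtain ⟨r, hr⟩ := h4
  have hr0 : 0 < r := by omega
  have : NeZero (2 * r) := ⟨by omega⟩
  have : Fact (Nat.Prime 2) := ⟨Nat.prime_two⟩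
  have hcard : Fintype.card (ZMod 2 × ZMod (2 * r)) = n := by
    rw [Fintype.card_prod, ZMod.card, ZMod.card, hr]
    ring
  have hinv : inv (ZMod 2 × ZMod (2 * r)) = 3 := by
    have := inv_add_one (ZMod 2 × ZMod (2 * r))
    rw [tor_prod, tor_even (by decide), tor_even (even_two_mul r)] at this
    omega
  have key := regularV hV (A := ZMod 2 × ZMod (2 * r)) hcard 2 (ι := Unit)
    (fun _ => (1, 0)) (0, 1)
    (by
      intro _
      rw [Prod.smul_mk, smul_zero]
      exact Prod.ext (two_nsmul_zmod 1) rfl)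
    (by
      rintro ⟨x, y⟩
      have h1 : ((x, y) : ZMod 2 × ZMod (2 * r)) =
          x.val • ((1, 0) : ZMod 2 × ZMod (2 * r)) + y.val • ((0, 1) : ZMod 2 × ZMod (2 * r)) := by
        rw [Prod.smul_mk, Prod.smul_mk, smul_zero, smul_zero, Prod.mk_add_mk, zero_add, add_zero,
          nsmul_eq_mul, mul_one, nsmul_eq_mul, mul_one, ZMod.natCast_zmod_val,
          ZMod.natCast_zmod_val]
      rw [h1, trl_add, trl_nsmul, trl_nsmul]
      refine Subgroup.mul_mem _ (Subgroup.pow_mem _ (Subgroup.subset_closure ?_) _)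
        (Subgroup.pow_mem _ (Subgroup.subset_closure (Set.mem_insert _ _)) _)
      exact Set.mem_insert_of_mem _ ⟨(), rfl⟩)
    ((1 - X) ^ 2 * (1 - X ^ 2) ^ (2 * r - 2)) (by
      intro k' hk'
      rw [hinv] at hk' ⊢
      have : k' = 2 * r - 2 := by omega
      rw [this]
      ring)
  obtain ⟨i, hi⟩ := hto
  rw [hi] at key
  exact sq_odd _ _ (by omega) key

/-- Relation for the wreath product. -/
theorem wreathV {n t m b p : ℕ} (hV : Van n t) [NeZero m] [hp : Fact p.Prime] (hpo : Odd p) (hb : 0 < b)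
    (hm : Even m) (hnm : m * p ^ b = n)
    (ht : t + 2 ≤ n)
    (htQ : ¬ p ^ b ∣ t + 1) : False := by
  have : NeZero p := ⟨hp.out.ne_zero⟩
  have hcard : Fintype.card (ZMod m × EE b p) = n := by
    rw [Fintype.card_prod, ZMod.card, card_EE, hnm]
  -- the generating function
  obtain ⟨k, hk, hprod⟩ := prod_pr (A := EE b p)
  obtain ⟨k', hk', hprod'⟩ := prod_pr (A := ZMod m)
  have i1 : inv (EE b p) = 0 := by
    have := inv_add_one (EE b p)
    rw [tor_EE hpo] at this
    omega
  have i2 : inv (ZMod m) = 1 := by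
    have := inv_add_one (ZMod m)
    rw [tor_even hm] at this
    omega
  rw [i1, card_EE] at hk
  rw [i1, pow_zero, one_mul] at hprod
  rw [i2, ZMod.card] at hk'
  rw [i2, pow_one] at hprod'
  set Q := p ^ b with hQ
  have hQp : p ≤ Q := by
    rw [hQ]
    exact Nat.le_self_pow hb.ne' p
  have hp3 : 3 ≤ p := by
    have h1 := hp.out.two_le
    rcases hpo with ⟨j, hj⟩
    omega
  obtain ⟨k₁, hk₁⟩ : ∃ k₁, k = k₁ + 1 := ⟨k - 1, by omega⟩
  have hQk : Q = 2 * k₁ + 3 := by omega
  have hG : ∏ j, (1 - (X : ℤ[X]) ^ (wT (m := m) (b := b) (p := p) j).card) =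
      (1 - X) * ((1 + X) * (1 - X ^ 2) ^ k₁ * expand ℤ Q ((1 - X) * (1 - X ^ 2) ^ k')) := by
    rw [Fintype.prod_sum_type]
    have e1 : ∏ x : Rp (EE b p), (1 - (X : ℤ[X]) ^ (wT (m := m) (b := b) (p := p) (.inl x)).card) =
        (1 - X ^ 2) ^ k := by
      rw [← hprod]
      exact Finset.prod_congr rfl fun x _ => by rw [card_inl]
    have e2 : ∏ d : Rp (ZMod m), (1 - (X : ℤ[X]) ^ (wT (m := m) (b := b) (p := p) (.inr d)).card) =
        expand ℤ Q ((1 - X) * (1 - X ^ 2) ^ k') := by
      rw [← hprod', map_prod]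
      refine Finset.prod_congr rfl fun d _ => ?_
      rw [card_inr, map_sub, map_one, map_pow, expand_X, ← pow_mul, mul_comm]
    rw [e1, e2, hk₁]
    ring
  have hall : ∀ (f : ZMod m → EE b p) (d : ZMod m),
      trl (d, 0) * blk f ∈ Subgroup.closure
        (insert (trl ((1, 0) : ZMod m × EE b p)) (Set.range (ga (m := m) (b := b) (p := p)))) := by
    intro f d
    refine Subgroup.mul_mem _ ?_ ?_
    · have h : ((d, 0) : ZMod m × EE b p) = d.val • ((1, 0) : ZMod m × EE b p) := by
        rw [Prod.smul_mk, smul_zero, nsmul_eq_mul, mul_one, ZMod.natCast_zmod_val]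
      rw [h, trl_nsmul]
      exact Subgroup.pow_mem _ (Subgroup.subset_closure (Set.mem_insert _ _)) _
    · exact Subgroup.closure_mono (Set.subset_insert _ _) (blk_mem f)
  have happ : ∀ (f : ZMod m → EE b p) (d : ZMod m) (z : ZMod m × EE b p),
      (trl ((d, 0) : ZMod m × EE b p) * blk f) z = (z.1 + d, z.2 + f z.1) := by
    intro f d z
    rw [Equiv.Perm.mul_apply, blk_apply]
    change (z.1, z.2 + f z.1) + (d, 0) = _
    rw [Prod.mk_add_mk, add_zero]
  have key := hV (ZMod m × EE b p) hcard p _ (ga (m := m) (b := b) (p := p)) (trl (1, 0)) ?_ ?_ ?_ ?_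
    _ (wT (m := m) (b := b) (p := p)) part_w ?_ ?_ ?_ _ hG
  · exact wr_ne Q k₁ k' t hQk htQ (by rw [show 2 * k' + 2 = m by omega, mul_comm]; omega) key
  · intro i j
    unfold ga
    rw [← blk_add, ← blk_add, add_comm]
  · intro i
    unfold ga
    rw [← blk_nsmul]
    have : ∀ f : ZMod m → EE b p, p • f = 0 := by
      intro f
      funext i k
      rw [Pi.smul_apply, Pi.smul_apply, nsmul_eq_mul, CharP.cast_eq_zero, zero_mul]
      rfl
    rw [this, blk_zero]
  · intro i
    have h1 : (trl ((1, 0) : ZMod m × EE b p))⁻¹ * ga i * trl (1, 0) =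
        blk (fun j => (Pi.single i.1 (Pi.single i.2 1) : ZMod m → EE b p) (j + 1)) := by
      rw [mul_assoc, inv_mul_eq_iff_eq_mul]
      ext z : 1
      rw [Equiv.Perm.mul_apply, Equiv.Perm.mul_apply]
      unfold ga
      rw [blk_apply, blk_apply]
      have hz : trl ((1, 0) : ZMod m × EE b p) z = (z.1 + 1, z.2) := Prod.ext rfl (add_zero _)
      rw [hz]
      exact Prod.ext rfl (add_zero _).symm
    rw [h1]
    exact blk_mem _
  · intro x y
    refine ⟨_, hall (fun _ => y.2 - x.2) (y.1 - x.1), ?_⟩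
    rw [happ]
    exact Prod.ext (by simp) (by simp)
  · intro j i u v h
    unfold ga
    rw [blk_apply, blk_apply]
    rcases j with x | d
    · rw [mem_inl] at h ⊢
      obtain ⟨h1, h2⟩ := h
      rw [Prod.fst_sub, sub_eq_zero] at h1
      refine ⟨?_, ?_⟩
      · rw [Prod.fst_sub, sub_eq_zero]
        exact h1
      · rw [Prod.snd_sub]
        simp only
        rw [h1, add_sub_add_right_eq_sub]
        exact h2
    · rw [mem_inr] at h ⊢
      exact h
  · intro j u v h
    change (v + (1, 0)) - (u + (1, 0)) ∈ _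
    rwa [add_sub_add_right_eq_sub]
  · intro j u v u' v' h h'
    rcases j with x | d
    · rw [mem_inl] at h h'
      obtain ⟨h1, h2⟩ := h
      obtain ⟨h1', h2'⟩ := h'
      rw [Prod.fst_sub, sub_eq_zero] at h1 h1'
      rw [Prod.snd_sub] at h2 h2'
      rcases pr_cases h2 h2' with h3 | h3
      · refine ⟨_, hall (fun _ => u'.2 - u.2) (u'.1 - u.1), Or.inl ⟨?_, ?_⟩⟩
        · rw [happ]
          exact Prod.ext (by simp) (by simp)
        · rw [happ]
          refine Prod.ext ?_ ?_
          · change v.1 + (u'.1 - u.1) = v'.1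
            rw [h1, h1']
            abel
          · change v.2 + (u'.2 - u.2) = v'.2
            have : v'.2 = (v'.2 - u'.2) + u'.2 := by abel
            rw [this, h3]
            abel
      · refine ⟨_, hall (fun _ => v'.2 - u.2) (v'.1 - u.1), Or.inr ⟨?_, ?_⟩⟩
        · rw [happ]
          exact Prod.ext (by simp) (by simp)
        · rw [happ]
          refine Prod.ext ?_ ?_
          · change v.1 + (v'.1 - u.1) = u'.1
            rw [h1, h1']
            abel
          · change v.2 + (v'.2 - u.2) = u'.2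
            have : v'.2 = (v'.2 - u'.2) + u'.2 := by abel
            rw [this, h3]
            abel
    · rw [mem_inr, Prod.fst_sub] at h h'
      have hne : v.1 ≠ u.1 := by
        intro h0
        rw [h0, sub_self] at h
        exact (part_pr.sy d).zero h
      rcases pr_cases h h' with h3 | h3
      · refine ⟨_, hall (Function.update (fun _ => v'.2 - v.2) u.1 (u'.2 - u.2)) (u'.1 - u.1),
          Or.inl ⟨?_, ?_⟩⟩
        · rw [happ, Function.update_self]
          exact Prod.ext (by simp) (by simp)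
        · rw [happ, Function.update_of_ne hne]
          refine Prod.ext ?_ ?_
          · change v.1 + (u'.1 - u.1) = v'.1
            have : v'.1 = (v'.1 - u'.1) + u'.1 := by abel
            rw [this, h3]
            abel
          · change v.2 + (v'.2 - v.2) = v'.2
            abel
      · refine ⟨_, hall (Function.update (fun _ => u'.2 - v.2) u.1 (v'.2 - u.2)) (v'.1 - u.1),
          Or.inr ⟨?_, ?_⟩⟩
        · rw [happ, Function.update_self]
          exact Prod.ext (by simp) (by simp)
        · rw [happ, Function.update_of_ne hne]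
          refine Prod.ext ?_ ?_
          · change v.1 + (v'.1 - u.1) = u'.1
            have : v'.1 = (v'.1 - u'.1) + u'.1 := by abel
            rw [this, h3]
            abel
          · change v.2 + (u'.2 - v.2) = u'.2
            abel

/-- **The arithmetic core.** -/
theorem not_van {n t : ℕ} (hn : 2 ≤ n) (ht : t + 2 ≤ n) : ¬ Van n t := by
  intro hV
  rcases Nat.even_or_odd n with he | ho
  swap
  · exact caseV_odd hV hn ho ht
  rcases Nat.even_or_odd t with hte | hto
  · exact caseV_even hV hn he ht hte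
  by_cases h4 : 4 ∣ n
  · exact caseV_four hV hn h4 ht hto
  have hnd : ¬ n ∣ t + 1 := fun h => absurd (Nat.le_of_dvd (by omega) h) (by omega)
  rw [Nat.dvd_iff_prime_pow_dvd_dvd] at hnd
  push Not at hnd
  obtain ⟨p, b, hp, h1, h2⟩ := hnd
  have hpo : Odd p := by
    refine hp.odd_of_ne_two ?_
    rintro rfl
    apply h2
    have hb : b ≤ 1 := by
      by_contra hb
      apply h4
      refine dvd_trans ?_ h1
      exact pow_dvd_pow 2 (show 2 ≤ b by omega)
    refine dvd_trans (pow_dvd_pow 2 hb) ?_
    rw [pow_one]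
    obtain ⟨j, hj⟩ := hto
    exact ⟨j + 1, by omega⟩
  have hb : 0 < b := by
    rcases Nat.eq_zero_or_pos b with h | h
    · exfalso
      apply h2
      rw [h, pow_zero]
      exact one_dvd _
    · exact h
  obtain ⟨m, hm⟩ := h1
  have hm' : m * p ^ b = n := by rw [hm, mul_comm]
  have hme : Even m := by
    rw [hm, Nat.even_mul] at he
    exact he.resolve_left (Nat.not_even_iff_odd.2 hpo.pow)
  have hm0 : m ≠ 0 := by
    rintro rfl
    omega
  have : NeZero m := ⟨hm0⟩
  have : Fact p.Prime := ⟨hp⟩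
  have : NeZero p := ⟨hp.ne_zero⟩
  exact wreathV hV hpo hb hme hm' ht h2


end Pool.Agent.W332.Kc
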