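import Mathlib
import Pool.Agent.W332.Kc.Van
import Pool.Agent.W332.Kd.Thr2

set_option autoImplicit false

/-!
# Cones over Cayley graphs (MP_257582_lc)
-/

namespace Pool.Agent.W332.Kc

open Finset Polynomial
open Pool.Agent.H98R2.Ev (EV toG NE)
open Pool.Agent.H119R2.Kp
open Pool.Agent.W332.Kd

/-- `G` together with one further vertex that is joined to all vertices -/
def coneO {A : Type} (G : SimpleGraph A) : SimpleGraph (Option A) where
  Adj u v := u ≠ v ∧ ∀ x y, u = some x → v = some y → G.Adj x y
  symm := ⟨fun _ _ h => ⟨h.1.symm, fun x y hx hy => (h.2 y x hy hx).symm⟩⟩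
  loopless := ⟨fun _ h => h.1 rfl⟩

/-- `G` together with one isolated vertex -/
def liftO {A : Type} (G : SimpleGraph A) : SimpleGraph (Option A) where
  Adj u v := ∃ x y, u = some x ∧ v = some y ∧ G.Adj x y
  symm := ⟨by
    rintro _ _ ⟨x, y, hx, hy, h⟩
    exact ⟨y, x, hy, hx, h.symm⟩⟩
  loopless := ⟨by
    rintro _ ⟨x, y, hx, hy, h⟩
    rw [hx] at hy
    cases hy
    exact G.loopless.irrefl _ h⟩

theorem coneO_mono {A : Type} {G H : SimpleGraph A} (h : G ≤ H) : coneO G ≤ coneO H :=
  fun _ _ h' => ⟨h'.1, fun x y hx hy => h (h'.2 x y hx hy)⟩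

theorem star_adj {A : Type} (u v : Option A) :
    (coneO (⊥ : SimpleGraph A)).Adj u v ↔ (u = none ∧ v ≠ none) ∨ (v = none ∧ u ≠ none) := by
  constructor
  · rintro ⟨h1, h2⟩
    cases u with
    | none => exact Or.inl ⟨rfl, h1.symm⟩
    | some x =>
      cases v with
      | none => exact Or.inr ⟨rfl, h1⟩
      | some y => exact absurd (h2 x y rfl rfl) (by simp)
  · rintro (⟨h1, h2⟩ | ⟨h1, h2⟩)
    · subst h1
      exact ⟨h2.symm, fun x y hx _ => by cases hx⟩
    · subst h1
      exact ⟨h2, fun x y _ hy => by cases hy⟩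

theorem cone_eq {A : Type} (G : SimpleGraph A) : coneO (⊥ : SimpleGraph A) ⊔ liftO G = coneO G := by
  ext u v
  rw [SimpleGraph.sup_adj, star_adj]
  constructor
  · rintro (h | ⟨x, y, rfl, rfl, h⟩)
    · rcases h with ⟨h1, h2⟩ | ⟨h1, h2⟩
      · subst h1
        exact ⟨h2.symm, fun x y hx _ => by cases hx⟩
      · subst h1
        exact ⟨h2, fun x y _ hy => by cases hy⟩
    · refine ⟨fun h' => ?_, fun x' y' hx hy => ?_⟩
      · cases h'
        exact G.loopless.irrefl _ h
      · cases hx
        cases hy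
        exact h
  · rintro ⟨h1, h2⟩
    cases u with
    | none => exact Or.inl (Or.inl ⟨rfl, h1.symm⟩)
    | some x =>
      cases v with
      | none => exact Or.inl (Or.inr ⟨rfl, h1⟩)
      | some y => exact Or.inr ⟨x, y, rfl, rfl, h2 x y rfl rfl⟩

/-- permutations fixing `none` -/
def oc {A : Type} : Equiv.Perm A →* Equiv.Perm (Option A) where
  toFun := fun f => Equiv.optionCongr f
  map_one' := by
    ext x
    cases x <;> simp
  map_mul' := by
    intro f g
    ext x
    cases x <;> simp

theorem oc_some {A : Type} (f : Equiv.Perm A) (x : A) : oc f (some x) = some (f x) := rfl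

theorem oc_none {A : Type} (f : Equiv.Perm A) : oc f none = none := rfl

theorem oc_cl {A ι : Type} (a : ι → Equiv.Perm A) {g : Equiv.Perm A}
    (h : g ∈ Subgroup.closure (Set.range a)) :
    oc g ∈ Subgroup.closure (Set.range fun i => oc (a i)) := by
  have := Subgroup.mem_map_of_mem oc h
  rw [MonoidHom.map_closure, ← Set.range_comp] at this
  exact this

theorem oc_cl' {A ι : Type} (a : ι → Equiv.Perm A) (c : Equiv.Perm A) {g : Equiv.Perm A}
    (h : g ∈ Subgroup.closure (insert c (Set.range a))) :
    oc g ∈ Subgroup.closure (insert (oc c) (Set.range fun i => oc (a i))) := by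
  have := Subgroup.mem_map_of_mem oc h
  rw [MonoidHom.map_closure, Set.image_insert_eq, ← Set.range_comp] at this
  exact this

open RelAux in
open Classical in
theorem relCone {n : ℕ} {P : SimpleGraph (Fin (n + 1)) → Prop} (hn : 2 ≤ n)
    (hP : GP (n + 1) ((n + 1).choose 2 - 1) P)
    (hisol : ∀ G : SimpleGraph (Fin (n + 1)), (∃ v, ∀ w, ¬ G.Adj v w) → ¬ P G)
    {A : Type} [AddCommGroup A] [Fintype A]
    [DecidableEq A] (hA : Fintype.card A = n) (p : ℕ) [Fact p.Prime] {ι : Type} [Fintype ι]
    (a : ι → Equiv.Perm A) (c : Equiv.Perm A)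
    (hcomm : ∀ i j, a i * a j = a j * a i) (hap : ∀ i, a i ^ p = 1)
    (hca : ∀ i, c⁻¹ * a i * c ∈ Subgroup.closure (Set.range a))
    (htrA : ∀ x y : A, ∃ g ∈ Subgroup.closure (insert c (Set.range a)), g x = y)
    {κ : Type} [Fintype κ] (T : κ → Finset A) (hT : Part T)
    (hTa : ∀ j i u v, v - u ∈ T j → a i v - a i u ∈ T j)
    (hTc : ∀ j u v, v - u ∈ T j → c v - c u ∈ T j)
    (htr : ∀ j u v u' v', v - u ∈ T j → v' - u' ∈ T j →
      ∃ g ∈ Subgroup.closure (insert c (Set.range a)), (g u = u' ∧ g v = v') ∨ (g u = v' ∧ g v = u')) :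
    ∑ I : Finset κ, (-1 : ℤ) ^ I.card *
      (if PV P (Option A) (coneO (cay (I.biUnion T))) then 1 else 0) = 0 := by
  obtain ⟨m, ⟨e⟩⟩ : ∃ m, Nonempty (Fin m ≃ Option κ) :=
    ⟨Fintype.card (Option κ), ⟨(Fintype.equivFin (Option κ)).symm⟩⟩
  set RR : Option κ → SimpleGraph (Option A) :=
    fun o => o.elim (coneO ⊥) (fun k => liftO (cay (T k))) with hRR
  set R : Fin m → SimpleGraph (Option A) := fun j => RR (e j) with hR
  have hliftadj : ∀ k u v, (liftO (cay (T k))).Adj u v ↔
      ∃ x y, u = some x ∧ v = some y ∧ y - x ∈ T k := by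
    intro k u v
    constructor
    · rintro ⟨x, y, hx, hy, h⟩
      exact ⟨x, y, hx, hy, (cay_adj (hT.sy k) x y).1 h⟩
    · rintro ⟨x, y, hx, hy, h⟩
      exact ⟨x, y, hx, hy, (cay_adj (hT.sy k) x y).2 h⟩
  have hRRdis : ∀ o o', o ≠ o' → Disjoint (RR o) (RR o') := by
    intro o o' hoo
    rw [disjoint_iff]
    ext u v
    rw [SimpleGraph.inf_adj]
    constructor
    · rintro ⟨h1, h2⟩
      exfalso
      cases o with
      | none =>
        cases o' with
        | none => exact hoo rfl
        | some k =>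
          obtain ⟨x, y, rfl, rfl, -⟩ := (hliftadj k _ _).1 h2
          rcases (star_adj _ _).1 h1 with ⟨h, -⟩ | ⟨h, -⟩ <;> cases h
      | some k =>
        obtain ⟨x, y, rfl, rfl, hk⟩ := (hliftadj k _ _).1 h1
        cases o' with
        | none => rcases (star_adj _ _).1 h2 with ⟨h, -⟩ | ⟨h, -⟩ <;> cases h
        | some k' =>
          obtain ⟨x', y', hx, hy, hk'⟩ := (hliftadj k' _ _).1 h2
          cases hx
          cases hy
          exact Finset.disjoint_left.1 (hT.disj k k' (fun h => hoo (by rw [h]))) hk hk'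
    · intro h
      exact absurd h (by simp)
  have hdis : ∀ i j, i ≠ j → Disjoint (R i) (R j) :=
    fun i j hij => hRRdis _ _ (fun h => hij (e.injective h))
  have hcard : ∑ j, Nat.card (R j).edgeSet = (n + 1).choose 2 := by
    have h1 : ∑ j, Nat.card (R j).edgeSet = (univ.biUnion fun j => ED (R j)).card := by
      rw [Finset.card_biUnion]
      · exact Finset.sum_congr rfl fun j _ => (card_ED (R j)).symm
      · intro i _ j _ hij
        change Disjoint (ED (R i)) (ED (R j))
        rw [Finset.disjoint_left]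
        rintro ⟨x, hx⟩ h1 h2
        rw [mem_ED] at h1 h2
        revert hx h1 h2
        refine Sym2.ind (fun u v => ?_) x
        intro _ h1 h2
        exact (hdis i j hij).le_bot (show (R i ⊓ R j).Adj u v from ⟨h1, h2⟩)
    rw [h1]
    have h2 : (univ.biUnion fun j => ED (R j)) = univ := by
      rw [Finset.eq_univ_iff_forall]
      rintro ⟨x, hx⟩
      rw [mem_biUnion]
      revert hx
      refine Sym2.ind (fun u v => ?_) x
      intro hx
      rw [Sym2.mk_isDiag_iff] at hx
      obtain ⟨o, ho⟩ : ∃ o, (RR o).Adj u v := by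
        cases u with
        | none => exact ⟨none, (star_adj _ _).2 (Or.inl ⟨rfl, fun h => hx h.symm⟩)⟩
        | some x =>
          cases v with
          | none => exact ⟨none, (star_adj _ _).2 (Or.inr ⟨rfl, fun h => hx h⟩)⟩
          | some y =>
            obtain ⟨k, hk⟩ := hT.cover (y - x) (by
              intro h
              exact hx (by rw [sub_eq_zero.1 h]))
            exact ⟨some k, (hliftadj k _ _).2 ⟨x, y, rfl, rfl, hk⟩⟩
      refine ⟨e.symm o, mem_univ _, ?_⟩
      rw [mem_ED]
      change (RR (e (e.symm o))).Adj u v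
      rw [Equiv.apply_symm_apply]
      exact ho
    rw [h2, Finset.card_univ, Sym2.card_subtype_not_diag, Fintype.card_option, hA]
  have hpos : 0 < (n + 1).choose 2 := Nat.choose_pos (by omega)
  have hone : Nontrivial A := by
    rw [← Fintype.one_lt_card_iff_nontrivial, hA]
    omega
  have key := rel hP (V := Option A) (by rw [Fintype.card_option, hA]) p (fun i => oc (a i)) (oc c)
    (by
      intro i j
      rw [← map_mul, ← map_mul, hcomm])
    (by
      intro i
      rw [← map_pow, hap, map_one])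
    (by
      intro i
      rw [← map_inv, ← map_mul, ← map_mul]
      exact oc_cl a (hca i))
    (⊥ : SimpleGraph (Option A)) R
    (by intro i u v h; exact absurd h (by simp)) (by intro u v h; exact absurd h (by simp))
    (by
      intro j i u v h
      change (RR (e j)).Adj u v at h
      change (RR (e j)).Adj _ _
      revert h
      cases e j with
      | none =>
        intro h
        change (coneO ⊥).Adj u v at h
        change (coneO ⊥).Adj _ _
        rw [star_adj] at h ⊢
        rcases h with ⟨h1, h2⟩ | ⟨h1, h2⟩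
        · subst h1
          exact Or.inl ⟨rfl, fun h => h2 ((oc (a i)).injective (h.trans (oc_none (a i)).symm))⟩
        · subst h1
          exact Or.inr ⟨rfl, fun h => h2 ((oc (a i)).injective (h.trans (oc_none (a i)).symm))⟩
      | some k =>
        intro h
        obtain ⟨x, y, rfl, rfl, hk⟩ := (hliftadj k _ _).1 h
        exact (hliftadj k _ _).2 ⟨a i x, a i y, rfl, rfl, hTa _ _ _ _ hk⟩)
    (by
      intro j u v h
      change (RR (e j)).Adj u v at h
      change (RR (e j)).Adj _ _
      revert h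
      cases e j with
      | none =>
        intro h
        change (coneO ⊥).Adj u v at h
        change (coneO ⊥).Adj _ _
        rw [star_adj] at h ⊢
        rcases h with ⟨h1, h2⟩ | ⟨h1, h2⟩
        · subst h1
          exact Or.inl ⟨rfl, fun h => h2 ((oc c).injective (h.trans (oc_none c).symm))⟩
        · subst h1
          exact Or.inr ⟨rfl, fun h => h2 ((oc c).injective (h.trans (oc_none c).symm))⟩
      | some k =>
        intro h
        obtain ⟨x, y, rfl, rfl, hk⟩ := (hliftadj k _ _).1 h
        exact (hliftadj k _ _).2 ⟨c x, c y, rfl, rfl, hTc _ _ _ hk⟩)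
    hdis (fun _ => disjoint_bot_left)
    (by
      intro j
      change ∃ u v, (RR (e j)).Adj u v
      cases e j with
      | none => exact ⟨none, some 0, (star_adj _ _).2 (Or.inl ⟨rfl, fun h => by cases h⟩)⟩
      | some k =>
        obtain ⟨x, hx⟩ := hT.ne k
        exact ⟨some 0, some x, (hliftadj k _ _).2 ⟨0, x, rfl, rfl, by rwa [sub_zero]⟩⟩)
    (by
      intro j u v u' v' h h'
      change (RR (e j)).Adj u v at h
      change (RR (e j)).Adj u' v' at h'
      revert h h'
      cases e j with
      | none =>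
        intro h h'
        change (coneO ⊥).Adj u v at h
        change (coneO ⊥).Adj u' v' at h'
        rw [star_adj] at h h'
        have hmain : ∀ w w' : Option A, w ≠ none → w' ≠ none →
            ∃ g ∈ Subgroup.closure (insert (oc c) (Set.range fun i => oc (a i))),
              g w = w' ∧ g none = none := by
          intro w w' hw hw'
          cases w with
          | none => exact absurd rfl hw
          | some x =>
            cases w' with
            | none => exact absurd rfl hw'
            | some y =>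
              obtain ⟨g, hg, hgx⟩ := htrA x y
              exact ⟨oc g, oc_cl' a c hg, by rw [oc_some, hgx], oc_none g⟩
        rcases h with ⟨h1, h2⟩ | ⟨h1, h2⟩ <;> rcases h' with ⟨h1', h2'⟩ | ⟨h1', h2'⟩ <;> subst h1 <;>
          subst h1' <;> obtain ⟨g, hg, hg1, hg2⟩ := hmain _ _ h2 h2'
        · exact ⟨g, hg, Or.inl ⟨hg2, hg1⟩⟩
        · exact ⟨g, hg, Or.inr ⟨hg2, hg1⟩⟩
        · exact ⟨g, hg, Or.inr ⟨hg1, hg2⟩⟩
        · exact ⟨g, hg, Or.inl ⟨hg1, hg2⟩⟩
      | some k =>
        intro h h'
        obtain ⟨x, y, rfl, rfl, hk⟩ := (hliftadj k _ _).1 h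
        obtain ⟨x', y', rfl, rfl, hk'⟩ := (hliftadj k _ _).1 h'
        obtain ⟨g, hg, hgg⟩ := htr k x y x' y' hk hk'
        refine ⟨oc g, oc_cl' a c hg, ?_⟩
        rcases hgg with ⟨h1, h2⟩ | ⟨h1, h2⟩
        · exact Or.inl ⟨by rw [oc_some, h1], by rw [oc_some, h2]⟩
        · exact Or.inr ⟨by rw [oc_some, h1], by rw [oc_some, h2]⟩)
    (by rw [hcard]; omega)
  -- the sum over subsets of `Option κ`
  have key2 : ∑ I : Finset (Option κ), (-1 : ℤ) ^ I.card *
      (if PV P (Option A) (⨆ o ∈ I, RR o) then 1 else 0) = 0 := by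
    refine Eq.trans ?_ key
    refine (Fintype.sum_equiv (Equiv.finsetCongr e) _ _ ?_).symm
    intro I
    have h1 : (Equiv.finsetCongr e I).card = I.card := by
      rw [Equiv.finsetCongr_apply, card_map]
    have h2 : (⊥ ⊔ ⨆ j ∈ I, R j) = ⨆ o ∈ Equiv.finsetCongr e I, RR o := by
      ext u v
      rw [bot_sup_eq]
      simp only [SimpleGraph.iSup_adj, Equiv.finsetCongr_apply, mem_map_equiv]
      constructor
      · rintro ⟨j, hj, h⟩
        exact ⟨e j, by simpa using hj, h⟩
      · rintro ⟨k, hk, h⟩
        refine ⟨e.symm k, hk, ?_⟩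
        change (RR (e (e.symm k))).Adj u v
        rw [Equiv.apply_symm_apply]
        exact h
    rw [h1, h2]
  have hsome : ∀ I : Finset κ, (⨆ o ∈ Finset.insertNone I, RR o) = coneO (cay (I.biUnion T)) := by
    intro I
    rw [← cone_eq]
    ext u v
    rw [SimpleGraph.sup_adj]
    simp only [SimpleGraph.iSup_adj]
    constructor
    · rintro ⟨o, ho, h⟩
      cases o with
      | none => exact Or.inl h
      | some k =>
        right
        obtain ⟨x, y, rfl, rfl, hk⟩ := (hliftadj k _ _).1 h
        refine ⟨x, y, rfl, rfl, ?_⟩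
        rw [cay_adj (hT.sy_biUnion _), mem_biUnion]
        exact ⟨k, Finset.some_mem_insertNone.1 ho, hk⟩
    · rintro (h | ⟨x, y, rfl, rfl, h⟩)
      · exact ⟨none, Finset.none_mem_insertNone, h⟩
      · rw [cay_adj (hT.sy_biUnion _), mem_biUnion] at h
        obtain ⟨k, hk, hk'⟩ := h
        exact ⟨some k, Finset.some_mem_insertNone.2 hk, (hliftadj k _ _).2 ⟨x, y, rfl, rfl, hk'⟩⟩
  have key3 : ∑ I : Finset κ, -((-1 : ℤ) ^ I.card *
      (if PV P (Option A) (coneO (cay (I.biUnion T))) then 1 else 0)) = 0 := by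
    refine Eq.trans ?_ key2
    refine Finset.sum_of_injOn (fun I : Finset κ => Finset.insertNone I) ?_ ?_ ?_ ?_
    · intro I _ J _ h
      exact Finset.insertNone.injective h
    · intro I _
      exact mem_coe.2 (mem_univ _)
    · intro I _ hI
      have hnone : none ∉ I := by
        intro h
        apply hI
        refine ⟨Finset.eraseNone I, mem_coe.2 (mem_univ _), ?_⟩
        change Finset.insertNone (Finset.eraseNone I) = I
        rw [Finset.insertNone_eraseNone, Finset.insert_eq_self.2 h]
      have hnot : ¬ PV P (Option A) (⨆ o ∈ I, RR o) := by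
        rintro ⟨e', he'⟩
        refine hisol _ ⟨e' none, fun w hw => ?_⟩ he'
        rw [SimpleGraph.map_adj] at hw
        obtain ⟨u, v, huv, hu, -⟩ := hw
        have hu' : u = none := e'.injective hu
        subst hu'
        simp only [SimpleGraph.iSup_adj] at huv
        obtain ⟨o, ho, h⟩ := huv
        cases o with
        | none => exact hnone ho
        | some k =>
          obtain ⟨x, y, hx, -, -⟩ := (hliftadj k _ _).1 h
          cases hx
      rw [if_neg hnot, mul_zero]
    · intro I _
      change _ = (-1 : ℤ) ^ (Finset.insertNone I).card *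
        (if PV P (Option A) (⨆ o ∈ Finset.insertNone I, RR o) then 1 else 0)
      rw [hsome, Finset.card_insertNone, pow_succ]
      ring
  rw [Finset.sum_neg_distrib, neg_eq_zero] at key3
  exact key3

/-- membership of cones over Cayley graphs given by a threshold is impossible -/
theorem van_of_cone {n : ℕ} {P : SimpleGraph (Fin (n + 1)) → Prop} (hn : 2 ≤ n)
    (hP : GP (n + 1) ((n + 1).choose 2 - 1) P)
    (hisol : ∀ G : SimpleGraph (Fin (n + 1)), (∃ v, ∀ w, ¬ G.Adj v w) → ¬ P G) (t : ℕ)
    (hdeg : ∀ (A : Type) [AddCommGroup A] [Fintype A], Fintype.card A = n →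
      ∀ S : Finset A, Sy S → (PV P (Option A) (coneO (cay S)) ↔ t + 1 ≤ S.card)) : Van n t := by
  intro A _ _ _ hA p _ ι _ a c hcomm hap hca htrA κ _ T hT hTa hTc htr G hG
  classical
  have key := relCone hn hP hisol hA p a c hcomm hap hca htrA T hT hTa hTc htr
  have hcard : ∀ I : Finset κ, (I.biUnion T).card = ∑ j ∈ I, (T j).card := by
    intro I
    rw [Finset.card_biUnion]
    intro i _ j _ hij
    exact hT.disj i j hij
  have h0 : Nonempty κ := by
    have : Nontrivial A := by
      rw [← Fintype.one_lt_card_iff_nontrivial, hA]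
      omega
    obtain ⟨x, hx⟩ := exists_ne (0 : A)
    obtain ⟨j, _⟩ := hT.cover x hx
    exact ⟨j⟩
  have htot : ∑ I : Finset κ, (-1 : ℤ) ^ I.card = 0 := by
    have := Finset.sum_powerset_neg_one_pow_card (x := (univ : Finset κ))
    rw [if_neg (Finset.univ_nonempty.ne_empty), Finset.powerset_univ] at this
    exact this
  have h1 : ∑ I : Finset κ, (-1 : ℤ) ^ I.card * (if ∑ j ∈ I, (T j).card < t + 1 then 1 else 0)
      = 0 := by
    refine Eq.trans ?_ (sub_eq_zero.2 (htot.trans key.symm))
    rw [← Finset.sum_sub_distrib]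
    refine Finset.sum_congr rfl fun I _ => ?_
    have h2 := hdeg A hA _ (hT.sy_biUnion I)
    rw [hcard] at h2
    by_cases h : t + 1 ≤ ∑ j ∈ I, (T j).card
    · rw [if_neg (not_lt.2 h), if_pos (h2.2 h)]
      ring
    · rw [if_pos (not_le.1 h), if_neg (fun h' => h (h2.1 h'))]
      ring
  rw [subset_sum, sum_range_coeff _ G hG] at h1
  exact h1

theorem cone_map {A B : Type} (e : A ≃ B) (G : SimpleGraph A) :
    coneO (G.map e.toEmbedding) = (coneO G).map (Equiv.optionCongr e).toEmbedding := by
  ext u v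
  rw [SimpleGraph.map_adj]
  constructor
  · rintro ⟨h1, h2⟩
    refine ⟨(Equiv.optionCongr e).symm u, (Equiv.optionCongr e).symm v, ⟨?_, ?_⟩, by simp, by simp⟩
    · intro h
      exact h1 ((Equiv.optionCongr e).symm.injective h)
    · intro x y hx hy
      rw [Equiv.symm_apply_eq] at hx hy
      have h3 := h2 (e x) (e y) hx hy
      rw [SimpleGraph.map_adj] at h3
      obtain ⟨x', y', h4, h5, h6⟩ := h3
      rw [e.injective h5, e.injective h6] at h4
      exact h4
  · rintro ⟨u', v', ⟨h1, h2⟩, rfl, rfl⟩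
    refine ⟨fun h => h1 ((Equiv.optionCongr e).injective h), ?_⟩
    intro x y hx hy
    rw [SimpleGraph.map_adj]
    cases u' with
    | none => cases hx
    | some x' =>
      cases v' with
      | none => cases hy
      | some y' =>
        cases hx
        cases hy
        exact ⟨x', y', h2 x' y' rfl rfl, rfl, rfl⟩

/-- **Main theorem on cones**, in terms of `GP`. -/
theorem no_GP_cone {n : ℕ} {P : SimpleGraph (Fin (n + 1)) → Prop} (hn : 2 ≤ n)
    (hP : GP (n + 1) ((n + 1).choose 2 - 1) P)
    (hisol : ∀ G : SimpleGraph (Fin (n + 1)), (∃ v, ∀ w, ¬ G.Adj v w) → ¬ P G)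
    (hex : ∃ G, P G)
    (hstar : ¬ PV P (Option (Fin n)) (coneO ⊥))
    (hdeg : ∀ (d : ℕ) (G H : SimpleGraph (Fin n)), VT G → VT H → Reg G d → Reg H d →
      (PV P (Option (Fin n)) (coneO G) ↔ PV P (Option (Fin n)) (coneO H))) : False := by
  set Q : SimpleGraph (Fin n) → Prop := fun K => PV P (Option (Fin n)) (coneO K) with hQ
  have hPV : ∀ (A : Type) [AddCommGroup A] [Fintype A], Fintype.card A = n → ∀ K : SimpleGraph A,
      (PV Q A K ↔ PV P (Option A) (coneO K)) := by
    intro A _ _ hA K
    constructor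
    · rintro ⟨e, e', he'⟩
      refine ⟨(Equiv.optionCongr e).trans e', ?_⟩
      rw [cone_map, SimpleGraph.map_map] at he'
      exact he'
    · rintro ⟨e'', he''⟩
      have e : A ≃ Fin n := Fintype.equivFinOfCardEq hA
      refine ⟨e, (Equiv.optionCongr e).symm.trans e'', ?_⟩
      rw [cone_map, SimpleGraph.map_map]
      have h1 : (⇑((Equiv.optionCongr e).symm.trans e'').toEmbedding ∘
          ⇑(Equiv.optionCongr e).toEmbedding) = ⇑e''.toEmbedding := by
        funext x
        change e'' ((Equiv.optionCongr e).symm ((Equiv.optionCongr e) x)) = e'' x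
        rw [Equiv.symm_apply_apply]
      rw [h1]
      exact he''
  have htop : Q ⊤ := by
    obtain ⟨G, hG⟩ := hex
    have h1 : P ⊤ := hP.mono _ _ le_top hG
    have e : Option (Fin n) ≃ Fin (n + 1) := Fintype.equivFinOfCardEq (by simp)
    refine ⟨e, hP.mono _ _ ?_ h1⟩
    intro u v huv
    rw [SimpleGraph.map_adj]
    refine ⟨e.symm u, e.symm v, ⟨fun h => huv (e.symm.injective h), ?_⟩, by simp, by simp⟩
    intro x y hx hy hxy
    apply huv
    apply e.symm.injective
    rw [hx, hy, hxy]
  obtain ⟨t, ht, hthr⟩ := threshold hn (P := Q)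
    (fun G H hGH => by
      rintro ⟨e, he⟩
      exact ⟨e, hP.mono _ _ (SimpleGraph.map_monotone _ (coneO_mono hGH)) he⟩)
    ⟨⊤, htop⟩ ⟨⊥, hstar⟩ (fun d G H h1 h2 h3 h4 => hdeg d G H h1 h2 h3 h4)
  refine not_van hn ht (van_of_cone hn hP hisol t ?_)
  intro A _ _ hA S hS
  rw [← hPV A hA]
  exact hthr A hA S hS

end Pool.Agent.W332.Kc
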